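import Pool.Agent.Lib.MP_acafa7_al.F.IfaceC

/-! Module OMC: the weight function of a coarse map is an alternating cocycle. -/

namespace MSG.F16

open Classical

theorem om0_swap12 {Y : Type} (c : Y → ℕ) (u v w : Y) : om0 c v u w = -(om0 c u v w) := by
  funext P Q R
  show om0 c v u w P Q R = -(om0 c u v w P Q R)
  unfold om0
  split_ifs
  · ring
  · simp

theorem om0_swap23 {Y : Type} (c : Y → ℕ) (u v w : Y) : om0 c u w v = -(om0 c u v w) := by
  funext P Q R
  show om0 c u w v P Q R = -(om0 c u v w P Q R)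
  unfold om0
  split_ifs
  · ring
  · simp

theorem om0_self12 {Y : Type} (c : Y → ℕ) (u w : Y) : om0 c u u w = 0 := by
  funext P Q R
  show om0 c u u w P Q R = 0
  unfold om0
  split_ifs
  · ring
  · rfl

theorem om0_self23 {Y : Type} (c : Y → ℕ) (u w : Y) : om0 c w u u = 0 := by
  funext P Q R
  show om0 c w u u P Q R = 0
  unfold om0
  split_ifs
  · ring
  · rfl

theorem om0_self13 {Y : Type} (c : Y → ℕ) (u w : Y) : om0 c u w u = 0 := by
  rw [om0_swap23, om0_self12, neg_zero]

theorem om0_coc {Y : Type} (c : Y → ℕ) (u v w r : Y)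
    (h : u = v ∨ u = w ∨ u = r ∨ v = w ∨ v = r ∨ w = r) :
    om0 c v w r - om0 c u w r + om0 c u v r - om0 c u v w = 0 := by
  rcases h with h | h | h | h | h | h
  · subst h
    rw [om0_self12, om0_self12]
    simp
  · subst h
    rw [om0_self12, om0_self13, om0_swap12 c u v r]
    simp
  · subst h
    rw [om0_self13, om0_self13, om0_swap12 c v u w, om0_swap23 c v u w]
    simp
  · subst h
    rw [om0_self12, om0_self23]
    simp
  · subst h
    rw [om0_self13, om0_self23, om0_swap23 c u v w]
    simp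
  · subst h
    rw [om0_self23, om0_self23]
    simp

theorem omc_st : OmCStatement := by
  intro V G B _ _ S Y _ π c hc
  refine ⟨⟨?_, ?_⟩, ?_⟩
  · intro x y z
    exact ⟨om0_swap12 c _ _ _, om0_swap23 c _ _ _⟩
  · intro x y z t hx hy hz ht h1 h2 h3 h4 h5 h6
    exact om0_coc c _ _ _ _ (hc.four x hx y hy z hz t ht h1 h2 h3 h4 h5 h6)
  · intro a ha
    funext P Q R
    have h := congrFun (congrFun (congrFun ha P) Q) R
    have h' : a P Q R + a P Q R + a P Q R = 0 := h
    show a P Q R = 0
    omega

end MSG.F16
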